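import Pool.Agent.R958.PN
import Pool.Agent.R349.PerExp

/-!
# The exponentials of algebraic numbers against the periods of the curves of a family near a given point

Polynomials with algebraic coefficients in the periods of the algebraic forms on a variety over the algebraic numbers are
periods in the sense of Kontsevich and Zagier. Let `K` be a number field and consider a family with symplectic monodromy
(for instance the products of the hyperelliptic curves) over an open subset `U` of `ℂ ^ X`. For every `τ > 0` and all `ξ` in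
`U` outside a set of Hausdorff dimension at most `2 [K : ℚ] (|X| - 1) / τ` the `K`-rational members of the family of height
at most `T` at distance at most `C T ^ (-τ)` from `ξ`, `T` large, have periods which have nothing to do with `e` and all the
other numbers `e ^ α`, `α` algebraic.

The definitions (`Pool.Agent.Y890.SM`, `Pool.Agent.Y890.MV`, `Pool.Agent.Y120`, `Pool.Agent.R349.PC`):
* `SympFam X n` : the families; `F.P i x` the matrices of periods, `F.Q i` and `F.J i` the polarizations;
* `F.torsor x` : the pairs `(Y, μ)`, `μ ≠ 0`, with `Y i * Q i(x) * (Y i)ᵀ = μ ^ w i J i` for all `i`; it contains the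
  matrices of the periods and `2 π i`;
* `pol io c Y` : the polynomial with coefficients `c l` of degree at most `k` in each entry of the matrices `Y i`;
* `Bd k T x` : all conjugates of the integer `x` of `K` are at most `T ^ k`;
* `Y120.HtLe K T x` : `x` is the quotient of two integers of `K` with all conjugates at most `T`;
* `Y890.HE.Conf n`, `Y890.HE.pm n e` : the branch points `e i r`, `r ≤ n i`, with increasing real parts, and the matrices
  of the periods of `x ^ j dx / y` on `y² = ∏ (x - e i r)`.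

The balls of radius `T ^ (-η)` are treated in the hand-in `PeriodsInSmallBalls`; its relations `Value` and `Root` are used
here, too.
-/

set_option autoImplicit false

open NumberField

namespace Pool.Agent.Results.MP_2cf66e_nt.NearEveryPoint

open Pool.Agent Pool.Agent.Y890.MV Pool.Agent.Y890.SM Pool.Agent.R349.PC

variable {X : Type} [Fintype X] [DecidableEq X] {ι : Type} [Fintype ι] [DecidableEq ι] {n : ι → ℕ}

/-- the coordinates of `s` are elements of `K` of height at most `T` at distance at most `r` from those of `ξ` -/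
def Near {K : Type} [Field K] [NumberField K] (io : K →+* ℂ) (T r : ℝ) (ξ : X → ℂ) (s : X → K) : Prop :=
  ∀ j, Y120.HtLe K T (s j) ∧ ‖ξ j - io (s j)‖ ≤ r

/-- `z` is `1 / q` times the value at the periods at `x` of a polynomial of degree at most `k` in each entry, `q ≠ 0` and
the coefficients integers of `K` with conjugates at most `T ^ k`, which either is not constant, equal to `q z`, on the set
of all `Y` with `(Y, 2 π i)` in the torsor, or all of whose monomials have odd degree -/
def Value (F : SympFam X n) (k : ℕ) (K : Type) [Field K] [NumberField K] (io : K →+* ℂ) (T : ℝ) (z : ℂ)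
    (x : X → ℂ) : Prop :=
  ∃ (q : 𝓞 K) (c : (Ix n → Fin (k + 1)) → 𝓞 K), q ≠ 0 ∧ Bd k T q ∧ (∀ l, Bd k T (c l)) ∧
    io (q : K) * z = pol io c (fun i => F.P i x) ∧
    ((∃ Y, (Y, tpi) ∈ F.torsor x ∧ io (q : K) * z ≠ pol io c Y) ∨ ∀ l, c l ≠ 0 → Odd (∑ y, (l y : ℕ)))

/-- `z` satisfies an equation of degree at most `k`, not all of whose coefficients are `0`, with coefficients which are
values at the periods at `x` of polynomials of degree at most `k` in each entry, the coefficients of which are integers of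
`K` with conjugates at most `T ^ k` -/
def Root (F : SympFam X n) (k : ℕ) (K : Type) [Field K] [NumberField K] (io : K →+* ℂ) (T : ℝ) (z : ℂ)
    (x : X → ℂ) : Prop :=
  ∃ c : Fin (k + 1) → (Ix n → Fin (k + 1)) → 𝓞 K, (∀ a l, Bd k T (c a l)) ∧
    ∑ a : Fin (k + 1), z ^ (a : ℕ) * pol io (c a) (fun i => F.P i x) = 0 ∧
    ∃ a, pol io (c a) (fun i => F.P i x) ≠ 0

/-- by the theorem of Lindemann and Weierstrass the algebraic `α` for which `e ^ α` is algebraic over `ℚ(π)` are in one
line -/
theorem line : ∃ α₀ : ℂ, ∀ α : ℂ, IsAlgebraic ℚ α → (∀ q : ℚ, α ≠ q * α₀) →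
    Transcendental (IntermediateField.adjoin ℚ {(Real.pi : ℂ)}) (Complex.exp α) := by
  by_cases h : ∃ β : ℂ, IsAlgebraic ℚ β ∧ β ≠ 0 ∧
      ¬ Transcendental (IntermediateField.adjoin ℚ {(Real.pi : ℂ)}) (Complex.exp β)
  · obtain ⟨β, hβ, hβ0, hβt⟩ := h
    refine ⟨β, fun α hα hq => ?_⟩
    have hli : LinearIndependent ℚ ![α, β] := by
      rw [LinearIndependent.pair_iff]
      intro s t hst
      rw [Rat.smul_def, Rat.smul_def] at hst
      have hs : s = 0 := by
        by_contra hs
        have hs' : (s : ℂ) ≠ 0 := by exact_mod_cast hs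
        apply hq (-t / s)
        push_cast
        field_simp
        linear_combination hst
      refine ⟨hs, ?_⟩
      rw [hs] at hst
      simp only [Rat.cast_zero, zero_mul, zero_add, mul_eq_zero] at hst
      rcases hst with h1 | h1
      · exact_mod_cast h1
      · exact absurd h1 hβ0
    rcases two_exp hα hβ hli with h1 | h1
    · exact h1
    · exact absurd h1 hβt
  · push Not at h
    refine ⟨0, fun α hα hq => ?_⟩
    have h1 := h α hα (by
      intro h0
      apply hq 0
      rw [h0]
      simp)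
    exact h1

theorem not_value (F : SympFam X n) {k : ℕ} {K : Type} [Field K] [NumberField K] {io : K →+* ℂ} {T : ℝ} {α : ℂ}
    {x : X → ℂ} (h : Good F k K io T (Complex.exp α) x) : ¬ Value F k K io T (Complex.exp α) x := by
  rintro ⟨q, c, h5, h6, h7, h8, h9⟩
  rcases h9 with ⟨Y, hY, h10⟩ | h9
  · exact h10 (h.1 q c h6 h7 h8 Y hY)
  · exact h.2.1 (Complex.exp_ne_zero α) q c h5 h6 h7 h9 h8

theorem not_root (F : SympFam X n) {k : ℕ} {K : Type} [Field K] [NumberField K] {io : K →+* ℂ} {T : ℝ} {z : ℂ}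
    {x : X → ℂ} (h : Good F k K io T z x)
    (hz : Transcendental (IntermediateField.adjoin ℚ {(Real.pi : ℂ)}) z) : ¬ Root F k K io T z x := by
  rintro ⟨c, h5, h6, a, h7⟩
  exact h7 (h.2.2.2 hz c h5 h6 a)

theorem countable_exp : {z : ℂ | ∃ α : ℂ, IsAlgebraic ℚ α ∧ z = Complex.exp α}.Countable := by
  have h1 : {z : ℂ | ∃ α : ℂ, IsAlgebraic ℚ α ∧ z = Complex.exp α} = Complex.exp '' {α : ℂ | IsAlgebraic ℚ α} := by
    ext z
    constructor
    · rintro ⟨α, hα, rfl⟩
      exact ⟨α, hα, rfl⟩
    · rintro ⟨α, hα, rfl⟩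
      exact ⟨α, hα, rfl⟩
  rw [h1]
  exact (Algebraic.countable ℚ ℂ).image _

/-- **`e ^ α` and the periods near a given point.** There is a complex number `α₀` such that for every family `F` with
symplectic monodromy over an open subset `U` of `ℂ ^ X` and every number field `K` with an embedding `io` in `ℂ`:
(1) for every `τ > 0` there is a set `E` of Hausdorff dimension at most `2 [K : ℚ] (|X| - 1) / τ` such that for all `ξ` in
`U` outside `E`, all algebraic numbers `α`, all `k` and `C` and all large `T`: `e ^ α` is not a value at the points with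
coordinates in `K` of height at most `T` at distance at most `C T ^ (-τ)` from `ξ`, and not a root if `α` is not in
`ℚ α₀`;
(2) if `|X| = 1`, then there is one set `E` of Hausdorff dimension zero with this property for all `τ > 0`.
(3) The period matrices of all products of hyperelliptic curves `y² = ∏ (x - e i r)`, `r ≤ n i`, `n i` even, are such a
family. -/
theorem result :
    (∃ α₀ : ℂ, ∀ (X : Type) [Fintype X] [DecidableEq X] [Nonempty X] (ι : Type) [Fintype ι] [DecidableEq ι] (n : ι → ℕ)
      (F : SympFam X n) (K : Type) [Field K] [NumberField K] (io : K →+* ℂ),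
      (∀ τ : ℝ, 0 < τ → ∃ E : Set (X → ℂ),
        dimH E ≤ ENNReal.ofReal (2 * (Module.finrank ℚ K : ℝ) * ((Fintype.card X : ℝ) - 1) / τ) ∧
        ∀ ξ ∈ F.U, ξ ∉ E → ∀ α : ℂ, IsAlgebraic ℚ α → ∀ (k : ℕ) (C : ℝ), ∃ T₁ : ℝ, ∀ T : ℝ, T₁ ≤ T → ∀ s : X → K,
          Near io T (C * T ^ (-τ)) ξ s →
            ¬ Value F k K io T (Complex.exp α) (fun j => io (s j)) ∧
            ((∀ q : ℚ, α ≠ q * α₀) → ¬ Root F k K io T (Complex.exp α) (fun j => io (s j)))) ∧
      (Fintype.card X = 1 → ∃ E : Set (X → ℂ), dimH E = 0 ∧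
        ∀ ξ ∈ F.U, ξ ∉ E → ∀ α : ℂ, IsAlgebraic ℚ α → ∀ (k : ℕ) (τ C : ℝ), 0 < τ → ∃ T₁ : ℝ, ∀ T : ℝ, T₁ ≤ T →
          ∀ s : X → K, Near io T (C * T ^ (-τ)) ξ s →
            ¬ Value F k K io T (Complex.exp α) (fun j => io (s j)) ∧
            ((∀ q : ℚ, α ≠ q * α₀) → ¬ Root F k K io T (Complex.exp α) (fun j => io (s j))))) ∧
    ∀ (ι : Type) [Fintype ι] [DecidableEq ι] (n : ι → ℕ), (∀ i, Even (n i)) →
      ∃ F : SympFam (Σ i, Fin (n i + 1)) n, F.U = Y890.HE.Conf n ∧ (∀ i, F.w i = 1) ∧
        ∀ i e, F.P i e = Y890.HE.pm n e i := by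
  refine ⟨?_, fun _ _ _ n hn => ⟨hyp n hn, rfl, fun _ => rfl, fun _ _ => rfl⟩⟩
  obtain ⟨α₀, hα₀⟩ := line
  refine ⟨α₀, fun X _ _ _ ι _ _ n F K _ _ io => ?_⟩
  obtain ⟨h1, h2⟩ := R958.PN.near F K io _ countable_exp
  refine ⟨fun τ hτ => ?_, fun hX => ?_⟩
  · obtain ⟨E, hE, h⟩ := h1 τ hτ
    refine ⟨E, hE, fun ξ hξ hξE α hα k C => ?_⟩
    obtain ⟨T₁, hT₁⟩ := h ξ hξ hξE (Complex.exp α) ⟨α, hα, rfl⟩ k C
    refine ⟨T₁, fun T hT s hs => ?_⟩
    have hG := (hT₁ T hT s hs).2
    exact ⟨not_value F hG, fun hq => not_root F hG (hα₀ α hα hq)⟩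
  · obtain ⟨E, hE, h⟩ := h2 hX
    refine ⟨E, hE, fun ξ hξ hξE α hα k τ C hτ => ?_⟩
    obtain ⟨T₁, hT₁⟩ := h ξ hξ hξE (Complex.exp α) ⟨α, hα, rfl⟩ k τ C hτ
    refine ⟨T₁, fun T hT s hs => ?_⟩
    have hG := (hT₁ T hT s hs).2
    exact ⟨not_value F hG, fun hq => not_root F hG (hα₀ α hα hq)⟩

end Pool.Agent.Results.MP_2cf66e_nt.NearEveryPoint
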