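import Pool.Agent.HP778.KZ5

/-!
# `e` and the periods of dimension one

Let `𝒫₁` be the space of all linear combinations, with algebraic coefficients, of the absolutely
convergent integrals `∫_σ P(x) / Q(x) dx` of the problem in dimension `n = 1` (with algebraic
coefficients also in `P`, `Q` and in the inequalities which define `σ ⊆ ℝ`). Already the question
whether `e` is in `𝒫₁` is open. We show that `e` has very little contact with `𝒫₁`:

* The numbers `R(e)` with rational functions `R` of degree at most `D` with algebraic coefficients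
  which are in `𝒫₁` are contained in a space of dimension at most `4 D - 1`. For `D = 1`: at most two of
  the infinitely many numbers `e`, `1 / (e - a)`, `a` algebraic, are in `𝒫₁`.
* If `e` is a period then so are all the products `R(e) y`, `y` in `𝒫₁`. But apart from the elements
  `y` of a space of dimension at most `8 D - 4` (the space `𝒫₁` has infinite dimension) the products
  `R(e) y` are not in `𝒫₁`, for all nonconstant rational functions `R` of degree at most `D`.

The same is true for all transcendental numbers, and for rational functions of several numbers.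

The proof. By partial fractions, `𝒫₁` is contained in the space of linear forms in `1` and logarithms
of algebraic numbers (`Pool.Agent.HP778.KZ1` - `KZ3`). If `u_i = P_i(e) / Q_i(e)` are independent
elements of this space then all the combinations of the relations `Q_i(e) u_i = P_i(e)`, with
coefficients in the space `B` of the polynomials of degree less than `D`, are nontrivial linear
relations between elements of the space of polynomials of degree less than `2 D`, whose coefficients
are linear forms in logarithms. The hyperplane case of the linear subgroup theorem of Waldschmidt and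
Roy (starting files `Pool.Agent.W254.HP`) bounds their number.
-/

set_option autoImplicit false

namespace Pool.Agent.Results.MP_2cf66e_nt.OneVariablePeriods

open Module Polynomial Pool.Agent.HP778 Pool.Agent.HP778.KZ
open Pool.Agent.H301R2.SSE (QB mem_QB Lt)

theorem e_tr : Transcendental ℚ ((Real.exp 1 : ℝ) : ℂ) :=
  ofReal_transcendental Pool.Agent.H340R2.LW.transcendental_exp_one

theorem encard_le_two {s : Set ℂ} (h : ∀ a : Fin 3 → ℂ, Function.Injective a → (∀ i, a i ∈ s) →
    False) : s.encard ≤ 2 := by
  by_contra hcon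
  have h1 : (3 : ℕ∞) ≤ s.encard := by
    rw [not_le] at hcon
    exact Order.add_one_le_of_lt hcon
  obtain ⟨t, hts, ht⟩ := Set.exists_subset_encard_eq h1
  obtain ⟨x, y, z, hxy, hxz, hyz, rfl⟩ := Set.encard_eq_three.mp ht
  refine h ![x, y, z] ?_ ?_
  · intro i j hij
    fin_cases i <;> fin_cases j <;> first | rfl | (exfalso; simp at hij; tauto)
  · intro i
    apply hts
    fin_cases i <;> simp

/-- **Main result.** Let `D ≥ 1` and let `e` be Euler's number.

(1) Let `t_1, ..., t_r` be any complex numbers, for instance `r = 1`, `t_1 = e`. The values at `t` of the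
rational functions with algebraic coefficients and of degree at most `D` in each variable which are in
`𝒫₁` are contained in a `ℚ̄`-space of dimension at most `(4 D) ^ r - 2 ^ r + 1`.

(2) There is a subspace `W` of `𝒫₁` of dimension at most `2 ((4 D) ^ r - 2 ^ r)` such that `x y` is not in
`𝒫₁` for all `y` in `𝒫₁` outside of `W` and all transcendental such values `x`.

(3) There is a subspace `W` of `𝒫₁` of dimension at most `4 D - 2` such that `P(e) y` is not in `𝒫₁` for
all `y` in `𝒫₁` outside of `W` and all nonconstant polynomials `P` of degree at most `D`.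

(4) There are at most two algebraic numbers `a` with `1 / (e - a)` in `𝒫₁`, and at most one if `e` is
in `𝒫₁`.

(5) `𝒫₁` has infinite dimension. -/
theorem result :
    (∀ (r : ℕ) (t : Fin r → ℂ) (D : ℕ), 1 ≤ D →
      (∃ W : Submodule (algebraicClosure ℚ ℂ) ℂ, Module.Finite (algebraicClosure ℚ ℂ) W ∧
        finrank (algebraicClosure ℚ ℂ) W ≤ (4 * D) ^ r - 2 ^ r + 1 ∧
        ∀ x ∈ ratVals t D, x ∈ periods1 → x ∈ W) ∧
      ∃ W : Submodule (algebraicClosure ℚ ℂ) ℂ, W ≤ periods1 ∧
        Module.Finite (algebraicClosure ℚ ℂ) W ∧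
        finrank (algebraicClosure ℚ ℂ) W ≤ 2 * ((4 * D) ^ r - 2 ^ r) ∧
        ∀ y ∈ periods1, y ∉ W → ∀ x ∈ ratVals t D, Transcendental ℚ x → x * y ∉ periods1) ∧
    (∀ D : ℕ, 1 ≤ D → ∃ W : Submodule (algebraicClosure ℚ ℂ) ℂ, W ≤ periods1 ∧
      Module.Finite (algebraicClosure ℚ ℂ) W ∧ finrank (algebraicClosure ℚ ℂ) W ≤ 4 * D - 2 ∧
      ∀ y ∈ periods1, y ∉ W → ∀ P : Polynomial (algebraicClosure ℚ ℂ), 1 ≤ P.natDegree →
        P.natDegree ≤ D → Polynomial.aeval ((Real.exp 1 : ℝ) : ℂ) P * y ∉ periods1) ∧
    {a : ℂ | IsAlgebraic ℚ a ∧ (((Real.exp 1 : ℝ) : ℂ) - a)⁻¹ ∈ periods1}.encard ≤ 2 ∧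
    (((Real.exp 1 : ℝ) : ℂ) ∈ periods1 →
      {a : ℂ | IsAlgebraic ℚ a ∧ (((Real.exp 1 : ℝ) : ℂ) - a)⁻¹ ∈ periods1}.encard ≤ 1) ∧
    ¬ Module.Finite (algebraicClosure ℚ ℂ) periods1 := by
  refine ⟨fun r t D hD => ⟨?_, ?_⟩, fun D hD => ?_, ?_, fun he => ?_, periods1_infinite⟩
  · obtain ⟨W, hf, hW, hS, -⟩ := exists_space_one (k := QB)
      {x : ℂ | x ∈ ratVals t D ∧ x ∈ periods1} ((4 * D) ^ r - 2 ^ r) (fun m l hl hS =>
        values_bound t hD l hl (fun i => periods1_le (hS i).2) (fun i => (hS i).1))
    exact ⟨W, hf, hW, fun x hx hx' => hS ⟨hx, hx'⟩⟩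
  · obtain ⟨W, hf, hW, hS, hWS⟩ := exists_space (k := QB)
      {y : ℂ | y ∈ periods1 ∧ ∃ x ∈ ratVals t D, Transcendental ℚ x ∧ x * y ∈ periods1}
      (2 * ((4 * D) ^ r - 2 ^ r)) (fun m l hl hS =>
        mult_bound t hD l hl (fun i => periods1_le (hS i).1) (fun i => by
          obtain ⟨x, hx, hx', hx''⟩ := (hS i).2
          exact ⟨x, hx, hx', periods1_le hx''⟩))
    refine ⟨W, hWS.trans (Submodule.span_le.mpr fun y hy => hy.1), hf, hW, ?_⟩
    intro y hy hyW x hx hx' hxy
    exact hyW (hS ⟨hy, x, hx, hx', hxy⟩)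
  · obtain ⟨W, hf, hW, hS, hWS⟩ := exists_space (k := QB)
      {y : ℂ | y ∈ periods1 ∧ ∃ P : Polynomial (algebraicClosure ℚ ℂ), 1 ≤ P.natDegree ∧
        P.natDegree ≤ D ∧ Polynomial.aeval ((Real.exp 1 : ℝ) : ℂ) P * y ∈ periods1}
      (4 * D - 2) (fun m l hl hS =>
        mult_poly_bound e_tr hD l hl (fun i => periods1_le (hS i).1) (fun i => by
          obtain ⟨P, h1, h2, h3⟩ := (hS i).2
          exact ⟨P, h1, h2, periods1_le h3⟩))
    refine ⟨W, hWS.trans (Submodule.span_le.mpr fun y hy => hy.1), hf, hW, ?_⟩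
    intro y hy hyW P h1 h2 h3
    exact hyW (hS ⟨hy, P, h1, h2, h3⟩)
  · refine encard_le_two fun a ha hmem => ?_
    have := few_poles e_tr a ha (fun i => (hmem i).1) (fun i => periods1_le (hmem i).2)
    omega
  · rw [Set.encard_le_one_iff]
    intro a b ha hb
    exact few_poles' e_tr (periods1_le he) ha.1 hb.1 (periods1_le ha.2) (periods1_le hb.2)

end Pool.Agent.Results.MP_2cf66e_nt.OneVariablePeriods
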