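import Pool.Agent.R349.PerExp

/-!
# `e` and the exponentials of algebraic numbers against the periods of the curves of a family: small balls

Polynomials with algebraic coefficients in the periods of the algebraic forms on a variety over the algebraic numbers are
periods in the sense of Kontsevich and Zagier. For families with symplectic monodromy (for instance the hyperelliptic
curves) we look at the points of height at most `T` of the base in a ball of radius `T ^ (-η)`, for any `η > 0`, and show
that the numbers `e ^ α` have nothing to do with the periods outside a bounded number of hypersurfaces of bounded degree.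

The definitions (`Pool.Agent.Y890.SM`, `Pool.Agent.Y890.MV`, `Pool.Agent.Y124`, `Pool.Agent.Y120`, `Pool.Agent.R349.PC`):
* `SympFam X n` : the families; `F.P i x` the matrices of periods, `F.Q i` and `F.J i` the polarizations;
* `F.torsor x` : the pairs `(Y, μ)`, `μ ≠ 0`, with `Y i * Q i(x) * (Y i)ᵀ = μ ^ w i J i` for all `i`; it contains the
  matrices of the periods and `2 π i`;
* `pol io c Y` : the polynomial with coefficients `c l` of degree at most `k` in each entry of the matrices `Y i`;
* `Bd k T x` : all conjugates of the integer `x` of `K` are at most `T ^ k`;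
* `InnerM U k` : the points of norm at most `k` at distance at least `1 / k` from the complement of `U`;
* `Cov D m S` : `S` is covered by at most `m` hypersurfaces of degree at most `D`;
* `Y890.HE.Conf n`, `Y890.HE.pm n e` : the branch points `e i r`, `r ≤ n i`, with increasing real parts, and the matrices
  of the periods of `x ^ j dx / y` on `y² = ∏ (x - e i r)`.
-/

set_option autoImplicit false

open NumberField

namespace Pool.Agent.Results.MP_2cf66e_nt.PeriodsInSmallBalls

open Pool.Agent Pool.Agent.Y890.MV Pool.Agent.Y890.SM Pool.Agent.R349.PC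

variable {X : Type} [Fintype X] [DecidableEq X] {ι : Type} [Fintype ι] [DecidableEq ι] {n : ι → ℕ}

/-- the points over `K` of height at most `T` in `InnerM F.U k` at distance at most `T ^ (-η)` from `t₀` with a given
property -/
def Points (F : SympFam X n) (k : ℕ) (η : ℝ) (K : Type) [Field K] [NumberField K] (io : K →+* ℂ) (T : ℝ)
    (t₀ : X → ℂ) (p : (X → ℂ) → Prop) : Set (X → ℂ) :=
  {t | ‖t - t₀‖ ≤ T ^ (-η) ∧ ∃ e : X → K, (∀ j, Y120.HtLe K T (e j)) ∧ (t = fun j => io (e j)) ∧
    t ∈ InnerM F.U k ∧ p t}

/-- `z` is `1 / q` times the value at the periods at `x` of a polynomial of degree at most `k` in each entry, `q ≠ 0` and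
the coefficients integers of `K` with conjugates at most `T ^ k`, which either is not constant, equal to `q z`, on the set
of all `Y` with `(Y, 2 π i)` in the torsor, or all of whose monomials have odd degree -/
def Value (F : SympFam X n) (k : ℕ) (K : Type) [Field K] [NumberField K] (io : K →+* ℂ) (T : ℝ) (z : ℂ)
    (x : X → ℂ) : Prop :=
  ∃ (q : 𝓞 K) (c : (Ix n → Fin (k + 1)) → 𝓞 K), q ≠ 0 ∧ Bd k T q ∧ (∀ l, Bd k T (c l)) ∧
    io (q : K) * z = pol io c (fun i => F.P i x) ∧
    ((∃ Y, (Y, tpi) ∈ F.torsor x ∧ io (q : K) * z ≠ pol io c Y) ∨ ∀ l, c l ≠ 0 → Odd (∑ y, (l y : ℕ)))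

/-- `z` satisfies an equation of degree at most `k`, not all of whose coefficients are `0`, with coefficients which are
values at the periods at `x` of polynomials of degree at most `k` in each entry, the coefficients of which are integers of
`K` with conjugates at most `T ^ k` -/
def Root (F : SympFam X n) (k : ℕ) (K : Type) [Field K] [NumberField K] (io : K →+* ℂ) (T : ℝ) (z : ℂ)
    (x : X → ℂ) : Prop :=
  ∃ c : Fin (k + 1) → (Ix n → Fin (k + 1)) → 𝓞 K, (∀ a l, Bd k T (c a l)) ∧
    ∑ a : Fin (k + 1), z ^ (a : ℕ) * pol io (c a) (fun i => F.P i x) = 0 ∧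
    ∃ a, pol io (c a) (fun i => F.P i x) ≠ 0

/-- Let `F` be a family with symplectic monodromy over an open subset of `ℂ ^ X`, `k` a number and `η > 0`. There are `C`
and `T₀` such that for all number fields `K` of degree at most `k`, embedded in `ℂ`, all `T ≥ T₀` and `t₀`:
(1) for every complex number `α`, for instance `α = 1`: the points for which `e ^ α` is a value lie on at most `C`
hypersurfaces of degree at most `C`;
(2) if `α`, `β` are algebraic numbers which are linearly independent over `ℚ`, then the points for which `e ^ α` is a root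
lie on at most `C` hypersurfaces of degree at most `C` for all these `K`, `T`, `t₀`, or the points for which `e ^ β` is a
root do; here `C` and `T₀` do not depend on `α` and `β` either;
(3) the period matrices of all products of hyperelliptic curves `y² = ∏ (x - e i r)`, `r ≤ n i`, `n i` even, are such a
family. -/
theorem result :
    (∀ (X : Type) [Fintype X] [DecidableEq X] [Nonempty X] (ι : Type) [Fintype ι] [DecidableEq ι] (n : ι → ℕ)
      (F : SympFam X n) (k : ℕ) (η : ℝ), 0 < η → ∃ (C : ℕ) (T₀ : ℝ),
      (∀ (K : Type) [Field K] [NumberField K], Module.finrank ℚ K ≤ k → ∀ (io : K →+* ℂ) (T : ℝ), T₀ ≤ T →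
        ∀ (t₀ : X → ℂ) (α : ℂ), Y124.Cov C C (Points F k η K io T t₀ (Value F k K io T (Complex.exp α)))) ∧
      ∀ α β : ℂ, IsAlgebraic ℚ α → IsAlgebraic ℚ β → LinearIndependent ℚ ![α, β] →
        ∃ z : ℂ, (z = Complex.exp α ∨ z = Complex.exp β) ∧
          ∀ (K : Type) [Field K] [NumberField K], Module.finrank ℚ K ≤ k → ∀ (io : K →+* ℂ) (T : ℝ), T₀ ≤ T →
            ∀ t₀ : X → ℂ, Y124.Cov C C (Points F k η K io T t₀ (Root F k K io T z))) ∧
    ∀ (ι : Type) [Fintype ι] [DecidableEq ι] (n : ι → ℕ), (∀ i, Even (n i)) →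
      ∃ F : SympFam (Σ i, Fin (n i + 1)) n, F.U = Y890.HE.Conf n ∧ (∀ i, F.w i = 1) ∧
        ∀ i e, F.P i e = Y890.HE.pm n e i := by
  refine ⟨fun X _ _ _ ι _ _ n F k η hη => ?_,
    fun _ _ _ n hn => ⟨hyp n hn, rfl, fun _ => rfl, fun _ _ => rfl⟩⟩
  obtain ⟨C, T₀, H⟩ := ballPC F k η hη
  refine ⟨C, T₀, fun K _ _ hK io T hT t₀ α => ?_, fun α β hα hβ hli => ?_⟩
  · refine (H K hK io (Complex.exp α) T hT t₀).mono le_rfl le_rfl ?_
    rintro t ⟨h1, e, h2, h3, h4, q, c, h5, h6, h7, h8, h9⟩
    refine ⟨h1, e, h2, h3, h4, fun hG => ?_⟩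
    rcases h9 with ⟨Y, hY, h10⟩ | h9
    · exact h10 (hG.1 q c h6 h7 h8 Y hY)
    · exact hG.2.1 (Complex.exp_ne_zero α) q c h5 h6 h7 h9 h8
  · obtain ⟨z, hz, hzt⟩ : ∃ z : ℂ, (z = Complex.exp α ∨ z = Complex.exp β) ∧
        Transcendental (IntermediateField.adjoin ℚ {(Real.pi : ℂ)}) z := by
      rcases two_exp hα hβ hli with h | h
      · exact ⟨_, Or.inl rfl, h⟩
      · exact ⟨_, Or.inr rfl, h⟩
    refine ⟨z, hz, fun K _ _ hK io T hT t₀ => ?_⟩
    refine (H K hK io z T hT t₀).mono le_rfl le_rfl ?_
    rintro t ⟨h1, e, h2, h3, h4, c, h5, h6, a, h7⟩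
    exact ⟨h1, e, h2, h3, h4, fun hG => h7 (hG.2.2.2 hzt c h5 h6 a)⟩

end Pool.Agent.Results.MP_2cf66e_nt.PeriodsInSmallBalls
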