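import Pool.Agent.R909.RandSets
import Pool.Agent.R479.DA.Lim
import Pool.Agent.R437.Met.Hs
import Pool.Agent.Results.MP_2cf66e_nt.PeriodsInSmallBalls

/-!
# The exponentials of algebraic numbers against the periods of random members of families of curves

Polynomials with algebraic coefficients in the periods of the algebraic forms on a variety over the
algebraic numbers are periods in the sense of Kontsevich and Zagier. Let `F` be a family with
symplectic monodromy over an open subset of `ℂ ^ X` (for instance the products of the hyperelliptic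
curves), `K` a number field in `ℂ`, `γ > 2 [K : ℚ] (|X| - 1)` (`γ > 0` if there is one parameter) and
`A` a random set of `K`-rational points which contains `s` with probability `O (H (s) ^ (-γ))`. Almost surely, for ALL algebraic
numbers `α` and all `k`, for only finitely many members `s ∈ A` in a compact part of the base the
number `e ^ α` is a value at the periods at `s` of a polynomial (with coefficients of height at most
`H (s) ^ k`, degree at most `k`, in another way than on the whole torsor of the period matrices).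
-/

set_option autoImplicit false
set_option linter.unusedSectionVars false

open NumberField

namespace Pool.Agent.Results.MP_2cf66e_nt.RandomPoints

open Filter Topology MeasureTheory Pool.Agent Pool.Agent.Y890.MV Pool.Agent.Y890.SM
  Pool.Agent.R349.PC
open Pool.Agent.Results.MP_2cf66e_nt.PeriodsInSmallBalls (Value Root)

/-- the height of a tuple `s` of elements of `K`: one plus the least natural number `n` such that all
`s j` are quotients of integers of `K` all of whose conjugates have absolute value at most `n` -/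
noncomputable def ht {X : Type} {K : Type} [Field K] [NumberField K] (s : X → K) : ℕ :=
  sInf {n : ℕ | ∀ j, Y120.HtLe K (n : ℝ) (s j)} + 1

/-- `s` belongs to the random set `A` with probability at most `C * H (s) ^ (-γ)` -/
def Sparse {Ω X K : Type} [Field K] [NumberField K] [MeasurableSpace Ω] (P : Measure Ω)
    (A : Ω → Set (X → K)) (γ C : ℝ) : Prop :=
  ∀ s : X → K, P {ω | s ∈ A ω} ≤ ENNReal.ofReal (C * (ht s : ℝ) ^ (-γ))

lemma htLe_mono {K : Type} [Field K] [NumberField K] {T T' : ℝ} (hT : T ≤ T') {x : K}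
    (h : Y120.HtLe K T x) : Y120.HtLe K T' x := by
  obtain ⟨a, b, h1, h2, h3, h4⟩ := h
  exact ⟨a, b, h1, h2.trans hT, h3.trans hT, h4⟩

lemma ht_spec {X : Type} [Fintype X] {K : Type} [Field K] [NumberField K] (s : X → K) (j : X) :
    Y120.HtLe K (ht s : ℝ) (s j) := by
  have h1 : ∀ x : K, ∃ n : ℕ, Y120.HtLe K (n : ℝ) x := by
    intro x
    obtain ⟨a, b, hb, hx⟩ := IsFractionRing.div_surjective (A := 𝓞 K) x
    obtain ⟨n, hn⟩ := exists_nat_ge (max (house (a : K)) (house (b : K)))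
    refine ⟨n, a, b, nonZeroDivisors.ne_zero hb, (le_max_left _ _).trans hn,
      (le_max_right _ _).trans hn, ?_⟩
    rw [← hx]
  choose n hn using h1
  have h2 : ∃ m : ℕ, ∀ j, Y120.HtLe K (m : ℝ) (s j) := by
    refine ⟨Finset.univ.sup fun j => n (s j), fun j => htLe_mono ?_ (hn (s j))⟩
    have h3 : n (s j) ≤ Finset.univ.sup fun j => n (s j) :=
      Finset.le_sup (f := fun j => n (s j)) (Finset.mem_univ j)
    exact_mod_cast h3
  have h3 : ∀ j, Y120.HtLe K ((sInf {n : ℕ | ∀ j, Y120.HtLe K (n : ℝ) (s j)} : ℕ) : ℝ) (s j) :=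
    Nat.sInf_mem (s := {n : ℕ | ∀ j, Y120.HtLe K (n : ℝ) (s j)}) h2
  refine htLe_mono ?_ (h3 j)
  unfold ht
  push_cast
  linarith

/-- the number of elements of bounded height -/
lemma ncard_htLe (K : Type) [Field K] [NumberField K] : ∃ C : ℝ, 0 ≤ C ∧ ∀ T : ℝ, 1 ≤ T →
    ∀ B : Finset K, (∀ x ∈ B, Y120.HtLe K T x) →
      (B.card : ℝ) ≤ C * T ^ (2 * Module.finrank ℚ K) := by
  obtain ⟨C, hC, h⟩ := Pool.Agent.R437.Met.Hs.pt_count K
  refine ⟨C, hC, fun T hT B hB => le_trans ?_ (h T hT)⟩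
  have h1 : (B : Set K) ⊆ {x : K | Pool.Agent.R437.Met.Hs.IsPt K T x} := by
    intro x hx
    obtain ⟨a, b, h1, h2, h3, h4⟩ := hB x (Finset.mem_coe.1 hx)
    exact ⟨a, b, h1, fun φ => ⟨(norm_embedding_le_house _ φ).trans h2,
      (norm_embedding_le_house _ φ).trans h3⟩, h4⟩
  have h2 := Set.ncard_le_ncard h1 (Pool.Agent.R437.Met.Hs.pt_finite K T)
  rw [Set.ncard_coe_finset] at h2
  exact_mod_cast h2

/-- points in a disc of radius `R`, at most `M` of them in every disc of radius `ρ` -/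
lemma count_balls {X K : Type} [Fintype X] [DecidableEq X] [Field K] (io : K →+* ℂ)
    (E : Finset (X → K)) {R ρ : ℝ} (hR0 : 0 ≤ R) (hR : ∀ e ∈ E, ‖fun j => io (e j)‖ ≤ R)
    (hρ : 0 < ρ) {M : ℝ} (hM : 0 ≤ M)
    (h : ∀ t₀ : X → ℂ, ∀ E' ⊆ E, (∀ e ∈ E', ‖(fun j => io (e j)) - t₀‖ ≤ ρ) →
      (E'.card : ℝ) ≤ M) :
    (E.card : ℝ) ≤ M * ((4 * R / ρ + 5) ^ 2) ^ Fintype.card X := by
  classical
  set c : (X → K) → X → ℤ × ℤ := fun e j =>
    (⌊(io (e j)).re * (2 / ρ)⌋, ⌊(io (e j)).im * (2 / ρ)⌋) with hc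
  obtain ⟨L, hL⟩ : ∃ L : ℕ, L = ⌈2 * R / ρ⌉₊ + 1 := ⟨_, rfl⟩
  have hLR : 2 * R / ρ ≤ (⌈2 * R / ρ⌉₊ : ℝ) := Nat.le_ceil _
  have hLR2 : (⌈2 * R / ρ⌉₊ : ℝ) < 2 * R / ρ + 1 := Nat.ceil_lt_add_one (by positivity)
  have hfl : ∀ x : ℝ, |x| ≤ R → ⌊x * (2 / ρ)⌋ ∈ Finset.Icc (-(L : ℤ)) L := by
    intro x hx
    obtain ⟨h1, h2⟩ := abs_le.1 hx
    have h3 : x * (2 / ρ) ≤ 2 * R / ρ := by
      have := mul_le_mul_of_nonneg_right h2 (by positivity : (0 : ℝ) ≤ 2 / ρ)
      calc x * (2 / ρ) ≤ R * (2 / ρ) := this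
        _ = 2 * R / ρ := by ring
    have h4 : -(2 * R / ρ) ≤ x * (2 / ρ) := by
      have := mul_le_mul_of_nonneg_right h1 (by positivity : (0 : ℝ) ≤ 2 / ρ)
      calc -(2 * R / ρ) = -R * (2 / ρ) := by ring
        _ ≤ x * (2 / ρ) := this
    rw [Finset.mem_Icc]
    constructor
    · rw [Int.le_floor]
      push_cast
      rw [hL]
      push_cast
      linarith
    · have h5 : ((⌊x * (2 / ρ)⌋ : ℤ) : ℝ) ≤ x * (2 / ρ) := Int.floor_le _
      have h6 : ((⌊x * (2 / ρ)⌋ : ℤ) : ℝ) ≤ ((L : ℤ) : ℝ) := by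
        rw [hL]
        push_cast
        linarith
      exact_mod_cast h6
  have hre : ∀ e ∈ E, ∀ j, |(io (e j)).re| ≤ R ∧ |(io (e j)).im| ≤ R := by
    intro e he j
    have h1 : ‖io (e j)‖ ≤ R := (norm_le_pi_norm (fun j => io (e j)) j).trans (hR e he)
    exact ⟨(Complex.abs_re_le_norm _).trans h1, (Complex.abs_im_le_norm _).trans h1⟩
  have himg : E.image c ⊆ Fintype.piFinset fun _ : X =>
      Finset.Icc (-(L : ℤ)) L ×ˢ Finset.Icc (-(L : ℤ)) L := by
    intro p hp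
    obtain ⟨e, he, rfl⟩ := Finset.mem_image.1 hp
    rw [Fintype.mem_piFinset]
    exact fun j => Finset.mem_product.2 ⟨hfl _ (hre e he j).1, hfl _ (hre e he j).2⟩
  have hcard : ((E.image c).card : ℝ) ≤ ((4 * R / ρ + 5) ^ 2) ^ Fintype.card X := by
    have h1 := Finset.card_le_card himg
    rw [Fintype.card_piFinset, Finset.prod_const, Finset.card_univ, Finset.card_product,
      Int.card_Icc] at h1
    have h2 : (((L : ℤ) + 1 - -(L : ℤ)).toNat) = 2 * L + 1 := by omega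
    rw [h2] at h1
    have h3 : ((E.image c).card : ℝ) ≤
        (((2 * L + 1 : ℕ) : ℝ) * ((2 * L + 1 : ℕ) : ℝ)) ^ Fintype.card X := by
      exact_mod_cast h1
    have h4 : ((2 * L + 1 : ℕ) : ℝ) ≤ 4 * R / ρ + 5 := by
      rw [hL]
      push_cast
      have : 4 * R / ρ = 2 * (2 * R / ρ) := by ring
      linarith
    have h5 : (0 : ℝ) ≤ ((2 * L + 1 : ℕ) : ℝ) := Nat.cast_nonneg _
    refine h3.trans (pow_le_pow_left₀ (mul_nonneg h5 h5) ?_ _)
    rw [sq]
    exact mul_le_mul h4 h4 h5 (h5.trans h4)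
  have hclose : ∀ x y : ℝ, ⌊x * (2 / ρ)⌋ = ⌊y * (2 / ρ)⌋ → |x - y| ≤ ρ / 2 := by
    intro x y hxy
    have h1 := Int.abs_sub_lt_one_of_floor_eq_floor hxy
    rw [← sub_mul, abs_mul, abs_of_pos (by positivity : 0 < 2 / ρ)] at h1
    have h2 : |x - y| * (2 / ρ) < 1 := h1
    have h3 : |x - y| = |x - y| * (2 / ρ) * (ρ / 2) := by
      field_simp
    rw [h3]
    calc |x - y| * (2 / ρ) * (ρ / 2) ≤ 1 * (ρ / 2) :=
          mul_le_mul_of_nonneg_right h2.le (by positivity)
      _ = ρ / 2 := one_mul _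
  have h1 : E.card ≤ ⌊M⌋₊ * (E.image c).card := by
    refine Finset.card_le_mul_card_image E ⌊M⌋₊ ?_
    intro p hp
    obtain ⟨e, he, rfl⟩ := Finset.mem_image.1 hp
    refine Nat.le_floor (h (fun j => io (e j)) _ (Finset.filter_subset _ _) ?_)
    intro e' he'
    rw [Finset.mem_filter] at he'
    obtain ⟨-, h2⟩ := he'
    rw [pi_norm_le_iff_of_nonneg hρ.le]
    intro j
    have h3 := congrArg Prod.fst (congrFun h2 j)
    have h4 := congrArg Prod.snd (congrFun h2 j)
    have h5 := hclose _ _ h3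
    have h6 := hclose _ _ h4
    rw [Pi.sub_apply]
    calc ‖io (e' j) - io (e j)‖ ≤ |(io (e' j) - io (e j)).re| + |(io (e' j) - io (e j)).im| :=
          Complex.norm_le_abs_re_add_abs_im _
      _ ≤ ρ / 2 + ρ / 2 := by
          rw [Complex.sub_re, Complex.sub_im]
          exact add_le_add h5 h6
      _ = ρ := by ring
  have h2 : (E.card : ℝ) ≤ ((⌊M⌋₊ : ℕ) : ℝ) * ((E.image c).card : ℝ) := by exact_mod_cast h1
  exact h2.trans (mul_le_mul (Nat.floor_le hM) hcard (Nat.cast_nonneg _) hM)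

lemma finite_of_card_le {α : Type} {S : Set α} {N : ℝ}
    (h : ∀ E : Finset α, (∀ e ∈ E, e ∈ S) → (E.card : ℝ) ≤ N) :
    S.Finite ∧ (S.ncard : ℝ) ≤ N := by
  have hfin : S.Finite := by
    by_contra hinf
    rw [← Set.Infinite] at hinf
    obtain ⟨E, hE1, hE2⟩ := hinf.exists_subset_card_eq (⌊N⌋₊ + 1)
    have h3 := h E (fun q hq => hE1 hq)
    rw [hE2] at h3
    push_cast at h3
    have := Nat.lt_floor_add_one N
    linarith
  refine ⟨hfin, ?_⟩
  rw [Set.ncard_eq_toFinset_card _ hfin]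
  exact h _ (fun q hq => by simpa using hq)

section

variable {X : Type} [Fintype X] [DecidableEq X] [Nonempty X] {ι : Type} [Fintype ι] [DecidableEq ι]
  {n : ι → ℕ}

/-- the points of height at most `T` which are not good -/
def NotGood (F : SympFam X n) (k : ℕ) (K : Type) [Field K] [NumberField K] (io : K →+* ℂ) (z : ℂ)
    (T : ℝ) : Set (X → K) :=
  {s | (∀ j, Y120.HtLe K T (s j)) ∧ (fun j => io (s j)) ∈ InnerM F.U k ∧
    ¬ Good F k K io T z (fun j => io (s j))}

lemma Bd.mono {k : ℕ} {K : Type} [Field K] [NumberField K] {T T' : ℝ} (hT0 : 0 ≤ T) (hT : T ≤ T')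
    {x : 𝓞 K} (h : Bd k T x) : Bd k T' x :=
  fun φ => (h φ).trans (pow_le_pow_left₀ hT0 hT k)

lemma notGood_mono (F : SympFam X n) (k : ℕ) (K : Type) [Field K] [NumberField K] (io : K →+* ℂ)
    (z : ℂ) {T T' : ℝ} (hT0 : 0 ≤ T) (hT : T ≤ T') :
    NotGood F k K io z T ⊆ NotGood F k K io z T' := by
  rintro s ⟨h1, h2, h3⟩
  refine ⟨fun j => htLe_mono hT (h1 j), h2, fun h => h3 ?_⟩
  exact ⟨fun q c g1 g2 => h.1 q c (Bd.mono hT0 hT g1) (fun l => Bd.mono hT0 hT (g2 l)),
    fun hz q c hq g1 g2 => h.2.1 hz q c hq (Bd.mono hT0 hT g1) (fun l => Bd.mono hT0 hT (g2 l)),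
    fun q c hq g1 g2 => h.2.2.1 q c hq (Bd.mono hT0 hT g1) (fun l => Bd.mono hT0 hT (g2 l)),
    fun ht c g1 => h.2.2.2 ht c (fun a l => Bd.mono hT0 hT (g1 a l))⟩

/-- the number of points which are not good -/
lemma count_notGood (F : SympFam X n) (k : ℕ) {η : ℝ} (hη : 0 < η)
    (K : Type) [Field K] [NumberField K] (hK : Module.finrank ℚ K ≤ k) (io : K →+* ℂ) (z : ℂ) :
    ∃ C₁ T₁ : ℝ, 0 ≤ C₁ ∧ 1 ≤ T₁ ∧ ∀ T : ℝ, T₁ ≤ T → (NotGood F k K io z T).Finite ∧
      ((NotGood F k K io z T).ncard : ℝ) ≤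
        C₁ * T ^ (2 * (Module.finrank ℚ K : ℝ) * ((Fintype.card X : ℝ) - 1) +
          2 * (Fintype.card X : ℝ) * η) := by
  classical
  obtain ⟨C, T₀, H⟩ := ballPC F k η hη
  obtain ⟨C₂, hC₂, hN⟩ := ncard_htLe K
  obtain ⟨m, hm⟩ : ∃ m : ℕ, m = Fintype.card X := ⟨_, rfl⟩
  have hm1 : 1 ≤ m := by
    rw [hm]
    exact Fintype.card_pos
  refine ⟨(C * C : ℕ) * (m * C₂ ^ (m - 1)) * ((4 * (k : ℝ) + 5) ^ 2) ^ m, max T₀ 1, by positivity,
    le_max_right _ _, fun T hT => ?_⟩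
  have hT0 : T₀ ≤ T := (le_max_left _ _).trans hT
  have hT1 : 1 ≤ T := (le_max_right _ _).trans hT
  have hTp : 0 < T := by linarith
  have hTη : 1 ≤ T ^ η := Real.one_le_rpow hT1 hη.le
  refine finite_of_card_le fun E hE => ?_
  have h1 := count_balls io E (R := (k : ℝ)) (ρ := T ^ (-η)) (Nat.cast_nonneg _)
    (fun e he => (hE e he).2.1.1) (Real.rpow_pos_of_pos hTp _)
    (M := (C * C : ℕ) * (m * (C₂ * T ^ (2 * Module.finrank ℚ K)) ^ (m - 1))) (by positivity)
    (fun t₀ E' hE' hρ => by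
      have h2 := R349.MVB.cov_prod io (fun j => E'.image fun e => e j) _
        (H K hK io z T hT0 t₀) E' (fun e he => by
          obtain ⟨h3, h4, h5⟩ := hE e (hE' he)
          exact ⟨fun j => Finset.mem_image_of_mem _ he, hρ e he, e, h3, rfl, h4, h5⟩)
      have h3 : (E'.card : ℝ) ≤ ((C * C : ℕ) : ℝ) *
          ∑ j : X, ∏ i ∈ Finset.univ.erase j, ((E'.image fun e => e i).card : ℝ) := by
        exact_mod_cast h2
      refine h3.trans (mul_le_mul_of_nonneg_left ?_ (Nat.cast_nonneg _))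
      have h4 : ∀ j : X, ∏ i ∈ Finset.univ.erase j, ((E'.image fun e => e i).card : ℝ) ≤
          (C₂ * T ^ (2 * Module.finrank ℚ K)) ^ (m - 1) := by
        intro j
        calc ∏ i ∈ Finset.univ.erase j, ((E'.image fun e => e i).card : ℝ)
            ≤ ∏ _i ∈ Finset.univ.erase j, (C₂ * T ^ (2 * Module.finrank ℚ K)) := by
              refine Finset.prod_le_prod (fun _ _ => Nat.cast_nonneg _) fun i _ => ?_
              refine hN T hT1 _ fun x hx => ?_
              obtain ⟨e, he, rfl⟩ := Finset.mem_image.1 hx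
              exact (hE e (hE' he)).1 i
          _ = (C₂ * T ^ (2 * Module.finrank ℚ K)) ^ (m - 1) := by
              rw [Finset.prod_const, Finset.card_erase_of_mem (Finset.mem_univ j),
                Finset.card_univ, hm]
      calc ∑ j : X, ∏ i ∈ Finset.univ.erase j, ((E'.image fun e => e i).card : ℝ)
          ≤ ∑ _j : X, (C₂ * T ^ (2 * Module.finrank ℚ K)) ^ (m - 1) :=
            Finset.sum_le_sum fun j _ => h4 j
        _ = m * (C₂ * T ^ (2 * Module.finrank ℚ K)) ^ (m - 1) := by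
            rw [Finset.sum_const, Finset.card_univ, nsmul_eq_mul, hm])
  refine h1.trans ?_
  rw [← hm]
  have h2 : 4 * (k : ℝ) / T ^ (-η) = 4 * k * T ^ η := by
    rw [Real.rpow_neg (by linarith), div_inv_eq_mul]
  rw [h2]
  have h4 : 4 * (k : ℝ) * T ^ η + 5 ≤ (4 * k + 5) * T ^ η := by
    rw [add_mul]
    linarith
  have h5 : 0 ≤ 4 * (k : ℝ) * T ^ η + 5 := by positivity
  have h6 : ((4 * (k : ℝ) * T ^ η + 5) ^ 2) ^ m ≤
      ((4 * (k : ℝ) + 5) ^ 2) ^ m * T ^ (2 * (m : ℝ) * η) := by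
    calc ((4 * (k : ℝ) * T ^ η + 5) ^ 2) ^ m ≤ (((4 * k + 5) * T ^ η) ^ 2) ^ m :=
          pow_le_pow_left₀ (by positivity) (pow_le_pow_left₀ h5 h4 2) m
      _ = ((4 * (k : ℝ) + 5) ^ 2) ^ m * (T ^ η) ^ (2 * m) := by
          rw [mul_pow, mul_pow, pow_mul (T ^ η)]
      _ = _ := by
          rw [← Real.rpow_natCast (T ^ η) (2 * m), ← Real.rpow_mul hTp.le]
          congr 2
          push_cast
          ring
  have h7 : (C₂ * T ^ (2 * Module.finrank ℚ K)) ^ (m - 1) =
      C₂ ^ (m - 1) * T ^ (2 * (Module.finrank ℚ K : ℝ) * ((m : ℝ) - 1)) := by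
    rw [mul_pow, ← pow_mul, ← Real.rpow_natCast T (2 * Module.finrank ℚ K * (m - 1))]
    congr 2
    push_cast [Nat.cast_sub hm1]
    ring
  rw [h7, Real.rpow_add hTp]
  calc ((C * C : ℕ) : ℝ) * (m * (C₂ ^ (m - 1) *
        T ^ (2 * (Module.finrank ℚ K : ℝ) * ((m : ℝ) - 1)))) * ((4 * (k : ℝ) * T ^ η + 5) ^ 2) ^ m
      ≤ ((C * C : ℕ) : ℝ) * (m * (C₂ ^ (m - 1) *
        T ^ (2 * (Module.finrank ℚ K : ℝ) * ((m : ℝ) - 1)))) *
          (((4 * (k : ℝ) + 5) ^ 2) ^ m * T ^ (2 * (m : ℝ) * η)) :=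
        mul_le_mul_of_nonneg_left h6 (by positivity)
    _ = _ := by ring

/-- the members over a random set which are not good -/
lemma random_notGood (F : SympFam X n) (k : ℕ)
    (K : Type) [Field K] [NumberField K] (hK : Module.finrank ℚ K ≤ k) (io : K →+* ℂ) (z : ℂ)
    {γ : ℝ} (hγ : 2 * (Module.finrank ℚ K : ℝ) * ((Fintype.card X : ℝ) - 1) < γ) {Ω : Type} [MeasurableSpace Ω] {P : Measure Ω} {A : Ω → Set (X → K)}
    {C : ℝ} (hA : Sparse P A γ C) :
    (∀ᵐ ω ∂P, {s : X → K | s ∈ NotGood F k K io z (ht s : ℝ) ∧ s ∈ A ω}.Finite) := by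
  classical
  obtain ⟨g, hg⟩ : ∃ g : ℝ, g = 2 * (Module.finrank ℚ K : ℝ) * ((Fintype.card X : ℝ) - 1) :=
    ⟨_, rfl⟩
  have hm1 : (1 : ℝ) ≤ (Fintype.card X : ℝ) := by exact_mod_cast Fintype.card_pos
  have hg0 : 0 ≤ g := by
    rw [hg]
    exact mul_nonneg (by positivity) (by linarith)
  rw [← hg] at hγ
  obtain ⟨C₁, T₁, hC₁, hT₁, hc⟩ := count_notGood F k
    (η := (γ - g) / (8 * (Fintype.card X : ℝ))) (div_pos (by linarith) (by linarith)) K hK io z
  have he : 2 * (Module.finrank ℚ K : ℝ) * ((Fintype.card X : ℝ) - 1) +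
      2 * (Fintype.card X : ℝ) * ((γ - g) / (8 * (Fintype.card X : ℝ))) = g + (γ - g) / 4 := by
    rw [← hg]
    field_simp
    ring
  simp only [he] at hc
  have hone : ∀ s : X → K, (1 : ℝ) ≤ (ht s : ℝ) := by
    intro s
    unfold ht
    push_cast
    have : (0 : ℝ) ≤ ((sInf {n : ℕ | ∀ j, Y120.HtLe K (n : ℝ) (s j)} : ℕ) : ℝ) :=
      Nat.cast_nonneg _
    linarith
  obtain ⟨hf2, -⟩ := hc T₁ le_rfl
  have hsum : Summable fun s : {s : X → K // s ∈ NotGood F k K io z (ht s : ℝ)} =>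
      ((ht s.1 : ℕ) : ℝ) ^ (-(g + (γ - g) / 2)) := by
    refine Pool.Agent.R479.DA.summable_heights
      (fun s : {s : X → K // s ∈ NotGood F k K io z (ht s : ℝ)} => ((ht s.1 : ℕ) : ℝ))
      (fun s => hone s.1) (s := g + (γ - g) / 4) (p := g + (γ - g) / 2)
      (C := C₁ + ((NotGood F k K io z T₁).ncard : ℝ))
      (by linarith) (by linarith) (fun Y hY => ?_)
    have hY1 : 1 ≤ Y ^ (g + (γ - g) / 4) := Real.one_le_rpow hY (by linarith)
    have h6 : (0 : ℝ) ≤ ((NotGood F k K io z T₁).ncard : ℝ) := Nat.cast_nonneg _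
    have hmaps : ∀ T : ℝ, Y ≤ T → Set.MapsTo Subtype.val
        {s : {s : X → K // s ∈ NotGood F k K io z (ht s : ℝ)} | ((ht s.1 : ℕ) : ℝ) ≤ Y}
        (NotGood F k K io z T) := by
      intro T hT s hs
      exact notGood_mono F k K io z (by linarith [hone s.1]) (le_trans hs hT) s.2
    have hinj : Set.InjOn Subtype.val
        {s : {s : X → K // s ∈ NotGood F k K io z (ht s : ℝ)} | ((ht s.1 : ℕ) : ℝ) ≤ Y} :=
      Subtype.val_injective.injOn
    by_cases h1 : T₁ ≤ Y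
    · obtain ⟨h2, h3⟩ := hc Y h1
      refine ⟨h2.of_injOn (hmaps Y le_rfl) hinj, ?_⟩
      have h4 := Set.ncard_le_ncard_of_injOn _ (hmaps Y le_rfl) hinj h2
      have h5 := le_trans (Nat.cast_le (α := ℝ).2 h4) h3
      refine h5.trans (mul_le_mul_of_nonneg_right (by linarith) (by linarith))
    · push Not at h1
      refine ⟨hf2.of_injOn (hmaps T₁ h1.le) hinj, ?_⟩
      have h4 := Set.ncard_le_ncard_of_injOn _ (hmaps T₁ h1.le) hinj hf2
      have h5 := Nat.cast_le (α := ℝ).2 h4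
      refine h5.trans ?_
      calc ((NotGood F k K io z T₁).ncard : ℝ) ≤ C₁ + ((NotGood F k K io z T₁).ncard : ℝ) := by
            linarith
        _ = (C₁ + ((NotGood F k K io z T₁).ncard : ℝ)) * 1 := (mul_one _).symm
        _ ≤ _ := mul_le_mul_of_nonneg_left hY1 (by linarith)
  exact (Pool.Agent.R909.RS.single (P := P)
    (nm := fun s : X → K => (ht s : ℝ)) (A := A) (γ := γ) (C := C) (fun x _ => hA x)
    (Q := fun s => s ∈ NotGood F k K io z (ht s : ℝ))
    (H := fun s => ((ht s : ℕ) : ℝ))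
    (fun z _ => hone z) (u := fun z => z) (K := 1) one_pos
    (fun z _ => by rw [one_mul]) (by linarith) (p := g + (γ - g) / 2) (η := (γ - g) / 2)
    (by linarith) (by linarith) hsum).1

end

/-- Let `F` be a family with symplectic monodromy over an open subset of `ℂ ^ X`, `K` a number field
with an embedding in `ℂ`, `γ > 2 [K : ℚ] (|X| - 1)` and `A` a random set of `K`-rational points with
`P (s ∈ A) ≤ C H (s) ^ (-γ)`. (1) Almost surely for all algebraic numbers `α` and all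
`k ≥ [K : ℚ]` there are only finitely many `s ∈ A` in `InnerM F.U k` for which `e ^ α` is a value
(with bounds `H (s) ^ k`). (2) If `α`, `β` are algebraic numbers which are linearly independent over
`ℚ`, then for `z = e ^ α` or for `z = e ^ β` almost surely for all `k ≥ [K : ℚ]` there are only
finitely many `s ∈ A` in `InnerM F.U k` for which `z` is a root. (3) The period matrices of all
products of hyperelliptic curves `y² = ∏ (x - e i r)`, `r ≤ n i`, `n i` even, are a family with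
symplectic monodromy. -/
theorem result :
    (∀ (X : Type) [Fintype X] [DecidableEq X] [Nonempty X] (ι : Type) [Fintype ι] [DecidableEq ι]
      (n : ι → ℕ) (F : SympFam X n) (K : Type) [Field K] [NumberField K] (io : K →+* ℂ) (γ : ℝ),
      2 * (Module.finrank ℚ K : ℝ) * ((Fintype.card X : ℝ) - 1) < γ →
      ∀ (Ω : Type) [MeasurableSpace Ω] (P : Measure Ω) (A : Ω → Set (X → K)) (C : ℝ),
      Sparse P A γ C →
      (∀ᵐ ω ∂P, ∀ α : ℂ, IsAlgebraic ℚ α → ∀ k : ℕ, Module.finrank ℚ K ≤ k →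
        {s : X → K | s ∈ A ω ∧ (fun j => io (s j)) ∈ InnerM F.U k ∧
          Value F k K io (ht s : ℝ) (Complex.exp α) (fun j => io (s j))}.Finite) ∧
      ∀ α β : ℂ, IsAlgebraic ℚ α → IsAlgebraic ℚ β → LinearIndependent ℚ ![α, β] →
        ∃ z : ℂ, (z = Complex.exp α ∨ z = Complex.exp β) ∧
          ∀ᵐ ω ∂P, ∀ k : ℕ, Module.finrank ℚ K ≤ k →
            {s : X → K | s ∈ A ω ∧ (fun j => io (s j)) ∈ InnerM F.U k ∧
              Root F k K io (ht s : ℝ) z (fun j => io (s j))}.Finite) ∧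
    ∀ (ι : Type) [Fintype ι] [DecidableEq ι] (n : ι → ℕ), (∀ i, Even (n i)) →
      ∃ F : SympFam (Σ i, Fin (n i + 1)) n, F.U = Y890.HE.Conf n ∧ (∀ i, F.w i = 1) ∧
        ∀ i e, F.P i e = Y890.HE.pm n e i := by
  refine ⟨fun X _ _ _ ι _ _ n F K _ _ io γ hγ Ω _ P A C hA => ?_,
    PeriodsInSmallBalls.result.2⟩
  constructor
  · have hcount : {α : ℂ | IsAlgebraic ℚ α}.Countable := Algebraic.countable ℚ ℂ
    have h1 : ∀ᵐ ω ∂P, ∀ α : ℂ, α ∈ {α : ℂ | IsAlgebraic ℚ α} →
        ∀ k : ℕ, Module.finrank ℚ K ≤ k →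
        {s : X → K | s ∈ NotGood F k K io (Complex.exp α) (ht s : ℝ) ∧ s ∈ A ω}.Finite := by
      rw [ae_ball_iff hcount]
      intro α _
      rw [ae_all_iff]
      intro k
      by_cases hk : Module.finrank ℚ K ≤ k
      · filter_upwards [random_notGood F k K hk io (Complex.exp α) hγ hA] with ω h2 _
        exact h2
      · exact Eventually.of_forall fun ω h2 => absurd h2 hk
    filter_upwards [h1] with ω h2 α hα k hk
    refine (h2 α hα k hk).subset ?_
    rintro s ⟨h3, h4, q, c, h5, h6, h7, h8, h9⟩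
    refine ⟨⟨ht_spec s, h4, fun hG => ?_⟩, h3⟩
    rcases h9 with ⟨Y, hY, h10⟩ | h9
    · exact h10 (hG.1 q c h6 h7 h8 Y hY)
    · exact hG.2.1 (Complex.exp_ne_zero α) q c h5 h6 h7 h9 h8
  · intro α β hα hβ hli
    obtain ⟨z, hz, hzt⟩ : ∃ z : ℂ, (z = Complex.exp α ∨ z = Complex.exp β) ∧
        Transcendental (IntermediateField.adjoin ℚ {(Real.pi : ℂ)}) z := by
      rcases two_exp hα hβ hli with h | h
      · exact ⟨_, Or.inl rfl, h⟩
      · exact ⟨_, Or.inr rfl, h⟩
    refine ⟨z, hz, ?_⟩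
    have h1 : ∀ᵐ ω ∂P, ∀ k : ℕ, Module.finrank ℚ K ≤ k →
        {s : X → K | s ∈ NotGood F k K io z (ht s : ℝ) ∧ s ∈ A ω}.Finite := by
      rw [ae_all_iff]
      intro k
      by_cases hk : Module.finrank ℚ K ≤ k
      · filter_upwards [random_notGood F k K hk io z hγ hA] with ω h2 _
        exact h2
      · exact Eventually.of_forall fun ω h2 => absurd h2 hk
    filter_upwards [h1] with ω h2 k hk
    refine (h2 k hk).subset ?_
    rintro s ⟨h3, h4, c, h5, h6, a, h7⟩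
    exact ⟨⟨ht_spec s, h4, fun hG => h7 (hG.2.2.2 hzt c h5 h6 a)⟩, h3⟩

end Pool.Agent.Results.MP_2cf66e_nt.RandomPoints
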